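import Pool.Agent.Y371.NK.Four

/-!
# A prime `p > k` to the first power in `(m+1)(m+2)⋯(m+k)`, for `k ≤ m ≤ k ^ (4 - ε)`

For every `ε > 0` and all large `k`, if `k ≤ m ≤ k ^ (4 - ε)` then at least `k / (200 log k)` primes
`p > k` divide `P(m, k) = (m+1)(m+2)⋯(m+k)` to the exponent exactly one.

The primes are between `k` and `2 k`: many of them divide a term, since the exponential sums
over primes with the phase `h b / p` are small (file `Y371/NK/Large`), and few of their squares do
(second differences of `m / x ^ 2`, file `Y371/NK/Sq`).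
-/

set_option autoImplicit false

namespace Pool.Agent.Results.MP_baf437_nt.BelowFourthPower

open Finset

/-- `P(m, k) = (m + 1) (m + 2) ⋯ (m + k)`. -/
def prodP (m k : ℕ) : ℕ := ∏ i ∈ Finset.Icc 1 k, (m + i)

/-- The set of the primes `p > k` which divide `P(m, k)` to the exponent exactly one. -/
def exactOnce (m k : ℕ) : Set ℕ := {p : ℕ | p.Prime ∧ k < p ∧ p ∣ prodP m k ∧ ¬ p ^ 2 ∣ prodP m k}

theorem le_ncard {m k : ℕ} (S : Finset ℕ) (hS : ∀ p ∈ S, p ∈ exactOnce m k) :
    S.card ≤ (exactOnce m k).ncard := by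
  rw [← Set.ncard_coe_finset]
  refine Set.ncard_le_ncard (fun p hp => hS p hp) ?_
  have h0 : prodP m k ≠ 0 := by
    unfold prodP
    rw [prod_ne_zero_iff]
    intro i hi
    rw [mem_Icc] at hi
    omega
  refine (Nat.divisors (prodP m k)).finite_toSet.subset fun p hp => ?_
  rw [mem_coe, Nat.mem_divisors]
  exact ⟨hp.2.2.1, h0⟩

/-- **At least `k / (200 log k)` primes `p > k` divide `(m+1)(m+2)⋯(m+k)` to the exponent exactly one,
for all `k ≤ m ≤ k ^ (4 - ε)`.** -/
theorem result : ∀ ε : ℝ, 0 < ε → ∃ k₀ : ℕ, ∀ k : ℕ, k₀ ≤ k → ∀ m : ℕ, k ≤ m →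
    (m : ℝ) ≤ (k : ℝ) ^ (4 - ε) → (k : ℝ) / (200 * Real.log k) ≤ ((exactOnce m k).ncard : ℝ) := by
  intro ε hε
  obtain ⟨N₁, h₁⟩ := Pool.Agent.Y371.NK.once_upto_four ε hε
  refine ⟨N₁, fun k hk m hkm hm => ?_⟩
  obtain ⟨S, h3, h4⟩ := h₁ k hk m hkm hm
  refine h3.trans ?_
  exact_mod_cast le_ncard S fun p hp => by
    obtain ⟨h5, h6, m', h7, h8, h9, h10⟩ := h4 p hp
    have e1 : m + (m' - m) = m' := by omega
    have hmem : m' - m ∈ Icc 1 k := by
      rw [mem_Icc]
      omega
    refine ⟨h5, h6, ?_, fun h11 => h10 ?_⟩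
    · unfold prodP
      have h12 : m' ∣ ∏ i ∈ Icc 1 k, (m + i) := by
        have h13 := dvd_prod_of_mem (fun i => m + i) hmem
        simp only [e1] at h13
        exact h13
      exact h9.trans h12
    · unfold prodP at h11
      rw [← mul_prod_erase _ _ hmem, e1] at h11
      refine Nat.Coprime.dvd_of_dvd_mul_right ?_ h11
      refine Nat.Coprime.pow_left 2 (Nat.Coprime.prod_right fun j hj => ?_)
      rw [mem_erase, mem_Icc] at hj
      refine (Nat.Prime.coprime_iff_not_dvd h5).2 fun hd => ?_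
      rcases Nat.lt_or_ge (m + j) m' with h13 | h13
      · have h14 := Nat.le_of_dvd (by omega) (Nat.dvd_sub h9 hd)
        omega
      · have h14 : p ∣ (m + j) - m' := Nat.dvd_sub hd h9
        have h15 := Nat.le_of_dvd (by omega) h14
        omega

end Pool.Agent.Results.MP_baf437_nt.BelowFourthPower
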